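import Pool.Agent.N912.LC.Stm
import Pool.Agent.W885.EG.SLQ

/-!
Project LC (helper912), parts LC6b and LC9: the content of a factorisation `d e = n^2 + t n + c`, and the
lower bound for the number of the factorisations in a residue class (from `W885.EG.spq_nat`).
-/

set_option autoImplicit false

namespace Pool.Agent.N951.LC

open Finset
open Pool.Agent.N912.LC

lemma le_of_sq_le_sq' {a b : ℕ} (h : a ^ 2 ≤ b ^ 2) : a ≤ b := by
  by_contra hh
  exact absurd (Nat.pow_lt_pow_left (not_le.1 hh) two_ne_zero) (not_lt.2 h)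

/-- the content -/
def G3 (d e N : ℕ) : ℕ := Nat.gcd (Nat.gcd d e) N

lemma G3_mul (g d e N : ℕ) : G3 (g * d) (g * e) (g * N) = g * G3 d e N := by
  unfold G3
  rw [Nat.gcd_mul_left, Nat.gcd_mul_left]

lemma G3_one {d e : ℕ} {N : ℤ} (h : ∀ g : ℤ, g ∣ d → g ∣ e → g ∣ N → IsUnit g) :
    G3 d e N.natAbs = 1 := by
  have h1 : G3 d e N.natAbs ∣ Nat.gcd d e := Nat.gcd_dvd_left _ _
  have h2 : G3 d e N.natAbs ∣ N.natAbs := Nat.gcd_dvd_right _ _
  have h3 := h (G3 d e N.natAbs : ℤ)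
    (Int.natCast_dvd_natCast.2 (h1.trans (Nat.gcd_dvd_left _ _)))
    (Int.natCast_dvd_natCast.2 (h1.trans (Nat.gcd_dvd_right _ _)))
    (Int.natCast_dvd.2 h2)
  have h4 := Int.isUnit_iff_natAbs_eq.1 h3
  simpa using h4

lemma G3_unit {d e : ℕ} {N : ℤ} (h : G3 d e N.natAbs = 1) :
    ∀ g : ℤ, g ∣ d → g ∣ e → g ∣ N → IsUnit g := by
  intro g h1 h2 h3
  have h4 : g.natAbs ∣ G3 d e N.natAbs := by
    refine Nat.dvd_gcd (Nat.dvd_gcd ?_ ?_) ?_
    · exact Int.natAbs_dvd_natAbs.2 h1 |>.trans (by simp)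
    · exact Int.natAbs_dvd_natAbs.2 h2 |>.trans (by simp)
    · exact Int.natAbs_dvd_natAbs.2 h3
  rw [h] at h4
  exact Int.isUnit_iff_natAbs_eq.2 (Nat.dvd_one.1 h4)

/-- the index set -/
noncomputable def WW (t c : ℤ) : Finset (ℕ × ℤ × ℤ) :=
  ((Icc 1 (t ^ 2 - 4 * c).natAbs) ×ˢ ({0, 1} : Finset ℤ) ×ˢ
    (Icc (0 : ℤ) ((t ^ 2 - 4 * c).natAbs + 1))).filter
    (fun y => y.2.1 ^ 2 < 4 * y.2.2 ∧ t ^ 2 - 4 * c = (y.1 : ℤ) ^ 2 * (y.2.1 ^ 2 - 4 * y.2.2))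

lemma mem_WW {t c : ℤ} (hD : t ^ 2 < 4 * c) {g : ℕ} {t' c' : ℤ} : (g, t', c') ∈ WW t c ↔
    1 ≤ g ∧ (t' = 0 ∨ t' = 1) ∧ t' ^ 2 < 4 * c' ∧ t ^ 2 - 4 * c = (g : ℤ) ^ 2 * (t' ^ 2 - 4 * c') := by
  unfold WW
  simp only [mem_filter, mem_product, mem_Icc, mem_insert, mem_singleton]
  constructor
  · rintro ⟨⟨⟨h1, -⟩, h2, -⟩, h3, h4⟩
    exact ⟨h1, h2, h3, h4⟩
  · rintro ⟨h1, h2, h3, h4⟩
    have hg : (1 : ℤ) ≤ g := by exact_mod_cast h1
    have e1 : ((t ^ 2 - 4 * c).natAbs : ℤ) = (g : ℤ) ^ 2 * (4 * c' - t' ^ 2) := by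
      rw [Int.natCast_natAbs, abs_of_neg (by linarith), h4]
      ring
    have h5 : (1 : ℤ) ≤ 4 * c' - t' ^ 2 := by linarith
    have h6 : (g : ℤ) ≤ ((t ^ 2 - 4 * c).natAbs : ℤ) := by
      rw [e1]
      nlinarith
    have h7 : 4 * c' - t' ^ 2 ≤ ((t ^ 2 - 4 * c).natAbs : ℤ) := by
      rw [e1]
      nlinarith [pow_pos (lt_of_lt_of_le one_pos hg) 2]
    have h8 : 0 ≤ t' ^ 2 := sq_nonneg _
    have h9 : t' ^ 2 ≤ 1 := by rcases h2 with rfl | rfl <;> norm_num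
    refine ⟨⟨⟨h1, by exact_mod_cast h6⟩, h2, ?_, ?_⟩, h3, h4⟩
    · linarith
    · linarith

/-- the third coordinate -/
lemma third {t c t' c' : ℤ} {g n' : ℕ} (ht : t = 0 ∨ t = 1) (hg : 1 ≤ g)
    (hD : t ^ 2 - 4 * c = (g : ℤ) ^ 2 * (t' ^ 2 - 4 * c')) (hp : 0 < 2 * (n' : ℤ) + t') :
    2 * ((((g : ℤ) * (2 * n' + t') - t) / 2).toNat : ℤ) + t = (g : ℤ) * (2 * n' + t') := by
  have hg' : (1 : ℤ) ≤ g := by exact_mod_cast hg
  have h1 : 1 ≤ (g : ℤ) * (2 * n' + t') := by nlinarith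
  have h2 : (2 : ℤ) ∣ (g : ℤ) * (2 * n' + t') - t := by
    have h3 : (2 : ℤ) ∣ (g * t') ^ 2 - t ^ 2 := ⟨2 * (g ^ 2 * c' - c), by linear_combination -hD⟩
    have h4 : (2 : ℤ) ∣ g * t' - t := by
      have h5 : Even ((g * t') ^ 2 - t ^ 2) := even_iff_two_dvd.2 h3
      rw [Int.even_sub, Int.even_pow' two_ne_zero, Int.even_pow' two_ne_zero, ← Int.even_sub] at h5
      exact even_iff_two_dvd.1 h5
    have e : (g : ℤ) * (2 * n' + t') - t = (g * t' - t) + 2 * (g * n') := by ring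
    rw [e]
    exact h4.add (dvd_mul_right _ _)
  have h3 : 0 ≤ (g : ℤ) * (2 * n' + t') - t := by
    rcases ht with rfl | rfl <;> linarith
  rw [Int.toNat_of_nonneg (Int.ediv_nonneg h3 (by norm_num)), Int.mul_ediv_cancel' h2]
  ring

theorem lc6b : S_LC6b := by
  classical
  intro t c ht htc
  have hc : 0 < c := by nlinarith [sq_nonneg t]
  have ht0 : 0 ≤ t := by rcases ht with rfl | rfl <;> norm_num
  refine ⟨WW t c, ?_, ?_⟩
  · rintro ⟨g, t', c'⟩ hy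
    exact (mem_WW htc).1 hy
  · intro X G
    rw [sum_sigma']
    symm
    refine sum_bij (fun y _ => (y.1.1 * y.2.1, y.1.1 * y.2.2.1,
      (((y.1.1 : ℤ) * (2 * y.2.2.2 + y.1.2.1) - t) / 2).toNat)) ?_ ?_ ?_ ?_
    · -- the image is a triple
      rintro ⟨⟨g, t', c'⟩, ⟨d', e', n'⟩⟩ hy
      rw [mem_sigma, mem_WW htc] at hy
      simp only [TP1, TP, mem_filter, mem_product, mem_Icc, mem_range] at hy ⊢
      obtain ⟨⟨hg, ht', htc', hDD⟩, ⟨⟨⟨hd1, hd2⟩, ⟨he1, he2⟩, hn⟩, heq, hpos⟩, hcop⟩ := hy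
      have hg' : (1 : ℤ) ≤ g := by exact_mod_cast hg
      have hgR : (0 : ℝ) < g := by exact_mod_cast (lt_of_lt_of_le one_pos hg)
      have key := third (c := c) ht hg hDD hpos
      set n := (((g : ℤ) * (2 * n' + t') - t) / 2).toNat with hnn
      have hX0 : 0 ≤ X / g := by
        by_contra h
        rw [Nat.floor_of_nonpos (not_le.1 h).le] at hd2
        omega
      have hX : 0 ≤ X := by
        by_contra h
        exact absurd hX0 (not_le.2 (div_neg_of_neg_of_pos (not_le.1 h) hgR))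
      have hdX : g * d' ≤ ⌊X⌋₊ := by
        apply Nat.le_floor
        have := (Nat.le_floor_iff hX0).1 hd2
        rw [le_div_iff₀ hgR] at this
        push_cast
        linarith
      have heX : g * e' ≤ ⌊X⌋₊ := by
        apply Nat.le_floor
        have := (Nat.le_floor_iff hX0).1 he2
        rw [le_div_iff₀ hgR] at this
        push_cast
        linarith
      have hmain : ((g * d' : ℕ) : ℤ) * ((g * e' : ℕ) : ℤ) = (n : ℤ) ^ 2 + t * n + c := by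
        have h4 : 4 * (((g * d' : ℕ) : ℤ) * ((g * e' : ℕ) : ℤ)) =
            4 * ((n : ℤ) ^ 2 + t * n + c) := by
          push_cast
          linear_combination (4 * (g : ℤ) ^ 2) * heq -
            (2 * (n : ℤ) + t + g * (2 * n' + t')) * key + hDD
        linarith
      have hnX : n ≤ ⌊X⌋₊ := by
        have h5 : (n : ℤ) ^ 2 ≤ ((g * d' : ℕ) : ℤ) * ((g * e' : ℕ) : ℤ) := by
          rw [hmain]
          have : 0 ≤ t * n := mul_nonneg ht0 (by positivity)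
          linarith
        have h6 : n ^ 2 ≤ (g * d') * (g * e') := by exact_mod_cast h5
        have h7 : n ^ 2 ≤ ⌊X⌋₊ * ⌊X⌋₊ := h6.trans (Nat.mul_le_mul hdX heX)
        rw [← pow_two] at h7
        exact le_of_sq_le_sq' h7
      refine ⟨⟨⟨Nat.mul_pos hg hd1, hdX⟩, ⟨Nat.mul_pos hg he1, heX⟩, by omega⟩, hmain, ?_⟩
      rw [key]
      positivity
    · -- injective
      rintro ⟨⟨g₁, t₁, c₁⟩, ⟨d₁, e₁, n₁⟩⟩ hy₁ ⟨⟨g₂, t₂, c₂⟩, ⟨d₂, e₂, n₂⟩⟩ hy₂ he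
      rw [mem_sigma, mem_WW htc] at hy₁ hy₂
      simp only [TP1, TP, mem_filter, mem_product, mem_Icc, mem_range, Prod.mk.injEq] at hy₁ hy₂ he
      obtain ⟨⟨hg₁, ht₁, -, hDD₁⟩, ⟨⟨⟨hd1₁, -⟩, -, -⟩, -, hpos₁⟩, hcop₁⟩ := hy₁
      obtain ⟨⟨hg₂, ht₂, -, hDD₂⟩, ⟨⟨-, -, -⟩, -, hpos₂⟩, hcop₂⟩ := hy₂
      obtain ⟨k1, k2, k3⟩ := he
      have key₁ := third (c := c) ht hg₁ hDD₁ hpos₁
      have key₂ := third (c := c) ht hg₂ hDD₂ hpos₂
      rw [k3, key₂] at key₁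
      have m1 := G3_one hcop₁
      have m2 := G3_one hcop₂
      have e1 := G3_mul g₁ d₁ e₁ (2 * (n₁ : ℤ) + t₁).natAbs
      have e2 := G3_mul g₂ d₂ e₂ (2 * (n₂ : ℤ) + t₂).natAbs
      have k4 : g₁ * (2 * (n₁ : ℤ) + t₁).natAbs = g₂ * (2 * (n₂ : ℤ) + t₂).natAbs := by
        have : ((g₁ * (2 * (n₁ : ℤ) + t₁).natAbs : ℕ) : ℤ) =
            ((g₂ * (2 * (n₂ : ℤ) + t₂).natAbs : ℕ) : ℤ) := by
          push_cast
          rw [abs_of_pos hpos₁, abs_of_pos hpos₂]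
          exact key₁.symm
        exact_mod_cast this
      rw [m1, mul_one] at e1
      rw [m2, mul_one] at e2
      have hg : g₁ = g₂ := by rw [← e1, ← e2, k1, k2, k4]
      subst hg
      have hg0 : 0 < g₁ := hg₁
      have k5 : d₁ = d₂ := Nat.eq_of_mul_eq_mul_left hg0 k1
      have k6 : e₁ = e₂ := Nat.eq_of_mul_eq_mul_left hg0 k2
      have hgz : (g₁ : ℤ) ≠ 0 := by exact_mod_cast hg0.ne'
      have k7 : 2 * (n₂ : ℤ) + t₂ = 2 * (n₁ : ℤ) + t₁ := mul_left_cancel₀ hgz key₁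
      have k8 : t₁ = t₂ := by omega
      have k9 : n₁ = n₂ := by omega
      subst k5 k6 k8 k9
      have k10 : t₁ ^ 2 - 4 * c₁ = t₁ ^ 2 - 4 * c₂ :=
        mul_left_cancel₀ (pow_ne_zero 2 hgz) (hDD₁.symm.trans hDD₂)
      have k11 : c₁ = c₂ := by linarith
      subst k11
      rfl
    · -- surjective
      rintro ⟨d, e, n⟩ hy
      simp only [TP, mem_filter, mem_product, mem_Icc, mem_range] at hy
      obtain ⟨⟨⟨hd1, hd2⟩, ⟨he1, he2⟩, hn⟩, heq, hpos⟩ := hy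
      obtain ⟨N, hN⟩ : ∃ N : ℕ, (N : ℤ) = 2 * (n : ℤ) + t := ⟨(2 * (n : ℤ) + t).toNat, by
        rw [Int.toNat_of_nonneg hpos.le]⟩
      have hN0 : 0 < N := by
        have : (0 : ℤ) < N := by rw [hN]; exact hpos
        exact_mod_cast this
      obtain ⟨g, hgdef⟩ : ∃ g : ℕ, g = G3 d e N := ⟨_, rfl⟩
      have hgd : g ∣ d := by
        rw [hgdef]
        exact (Nat.gcd_dvd_left _ _).trans (Nat.gcd_dvd_left _ _)
      have hge : g ∣ e := by
        rw [hgdef]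
        exact (Nat.gcd_dvd_left _ _).trans (Nat.gcd_dvd_right _ _)
      have hgN : g ∣ N := by
        rw [hgdef]
        exact Nat.gcd_dvd_right _ _
      obtain ⟨d', rfl⟩ := hgd
      obtain ⟨e', rfl⟩ := hge
      obtain ⟨N', rfl⟩ := hgN
      have hg0 : 0 < g := Nat.pos_of_ne_zero (fun h => by rw [h] at hd1; simp at hd1)
      have hone : G3 d' e' N' = 1 := by
        have h1 := G3_mul g d' e' N'
        rw [← hgdef] at h1
        exact (Nat.eq_of_mul_eq_mul_left hg0 (by rw [mul_one]; exact h1)).symm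
      have hd' : 1 ≤ d' := Nat.pos_of_ne_zero (fun h => by rw [h] at hd1; simp at hd1)
      have he' : 1 ≤ e' := Nat.pos_of_ne_zero (fun h => by rw [h] at he1; simp at he1)
      have hN' : 1 ≤ N' := Nat.pos_of_ne_zero (fun h => by rw [h] at hN0; simp at hN0)
      obtain ⟨n', t', hNe, htt⟩ : ∃ (n' : ℕ) (t' : ℤ), (N' : ℤ) = 2 * (n' : ℤ) + t' ∧
          (t' = 0 ∨ t' = 1) := ⟨N' / 2, ((N' % 2 : ℕ) : ℤ), by omega, by omega⟩
      obtain ⟨c', heq'⟩ : ∃ c' : ℤ, (d' : ℤ) * e' = (n' : ℤ) ^ 2 + t' * n' + c' :=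
        ⟨(d' : ℤ) * e' - n' ^ 2 - t' * n', by ring⟩
      have hDD : t ^ 2 - 4 * c = (g : ℤ) ^ 2 * (t' ^ 2 - 4 * c') := by
        have h1 : (g : ℤ) * (2 * n' + t') = 2 * (n : ℤ) + t := by
          rw [← hNe]
          exact_mod_cast hN
        have h2 : (g : ℤ) ^ 2 * (t' ^ 2 - 4 * c') =
            ((g : ℤ) * (2 * n' + t')) ^ 2 - 4 * ((g * d' : ℕ) : ℤ) * ((g * e' : ℕ) : ℤ) := by
          push_cast
          linear_combination (4 * (g : ℤ) ^ 2) * heq'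
        rw [h2, h1]
        linear_combination 4 * heq
      have htc' : t' ^ 2 < 4 * c' := by
        have h1 : (g : ℤ) ^ 2 * (t' ^ 2 - 4 * c') < 0 := by rw [← hDD]; linarith
        have h2 : 0 < (g : ℤ) ^ 2 := by positivity
        by_contra h
        have : 0 ≤ (g : ℤ) ^ 2 * (t' ^ 2 - 4 * c') := mul_nonneg h2.le (by linarith [not_lt.1 h])
        linarith
      have hpos' : 0 < 2 * (n' : ℤ) + t' := by
        rw [← hNe]
        exact_mod_cast hN'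
      have hgR : (0 : ℝ) < g := by exact_mod_cast hg0
      have hX : 0 ≤ X := by
        by_contra h
        rw [Nat.floor_of_nonpos (not_le.1 h).le] at hd2
        omega
      have hdX : d' ≤ ⌊X / g⌋₊ := by
        apply Nat.le_floor
        rw [le_div_iff₀ hgR]
        have := (Nat.le_floor_iff hX).1 hd2
        push_cast at this
        linarith
      have heX : e' ≤ ⌊X / g⌋₊ := by
        apply Nat.le_floor
        rw [le_div_iff₀ hgR]
        have := (Nat.le_floor_iff hX).1 he2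
        push_cast at this
        linarith
      have ht0' : 0 ≤ t' := by rcases htt with h | h <;> rw [h] <;> norm_num
      have hc0' : 0 < c' := by nlinarith [sq_nonneg t']
      have hnX : n' ≤ ⌊X / g⌋₊ := by
        have h5 : (n' : ℤ) ^ 2 ≤ (d' : ℤ) * e' := by
          rw [heq']
          have : 0 ≤ t' * n' := mul_nonneg ht0' (by positivity)
          linarith
        have h6 : n' ^ 2 ≤ d' * e' := by exact_mod_cast h5
        have h7 : n' ^ 2 ≤ ⌊X / g⌋₊ * ⌊X / g⌋₊ := h6.trans (Nat.mul_le_mul hdX heX)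
        rw [← pow_two] at h7
        exact le_of_sq_le_sq' h7
      refine ⟨⟨(g, t', c'), (d', e', n')⟩, ?_, ?_⟩
      · rw [mem_sigma, mem_WW htc]
        simp only [TP1, TP, mem_filter, mem_product, mem_Icc, mem_range]
        refine ⟨⟨hg0, htt, htc', hDD⟩, ⟨⟨⟨hd', hdX⟩, ⟨he', heX⟩, by omega⟩, heq', hpos'⟩, ?_⟩
        apply G3_unit
        rw [← hNe]
        simpa using hone
      · simp only [Prod.mk.injEq, true_and]
        have k1 := third (c := c) ht hg0 hDD hpos'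
        have k2 : (g : ℤ) * (2 * n' + t') = 2 * (n : ℤ) + t := by
          rw [← hNe]
          exact_mod_cast hN
        rw [k2] at k1
        rw [k2]
        omega
    · rintro ⟨⟨g, t', c'⟩, ⟨d', e', n'⟩⟩ hy
      rfl

theorem lc9 : S_LC9 := by
  classical
  intro t c ht htc q a hq
  have hc : 0 < c := by nlinarith [sq_nonneg t]
  obtain ⟨t', rfl, ht'⟩ : ∃ t' : ℕ, t = t' ∧ t' ≤ 1 := by
    rcases ht with rfl | rfl
    · exact ⟨0, rfl, by norm_num⟩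
    · exact ⟨1, rfl, le_rfl⟩
  obtain ⟨c', rfl⟩ : ∃ c' : ℕ, c = c' := ⟨c.toNat, by rw [Int.toNat_of_nonneg hc.le]⟩
  have hc' : 1 ≤ c' := by exact_mod_cast hc
  obtain ⟨c₁, hc₁, X₀, h⟩ := W885.EG.spq_nat t' c' ht' hc' q a hq
  refine ⟨c₁, hc₁, X₀, fun X hX => (h X hX).trans ?_⟩
  have hcard : ((Pool.Agent.W78.EG.SP (t' : ℤ) (c' : ℤ) X).filter (fun p => ∃ n : ℕ,
      0 < 2 * (n : ℤ) + (t' : ℤ) ∧
      (p.1 * p.2 : ℤ) = (n : ℤ) ^ 2 + (t' : ℤ) * n + (c' : ℤ) ∧ n ≡ a [MOD q])).card ≤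
      ((TP (t' : ℤ) (c' : ℤ) X).filter (fun y => y.2.2 ≡ a [MOD q])).card := by
    have hch : ∀ p : ℕ × ℕ, ∃ n : ℕ, (∃ n : ℕ, 0 < 2 * (n : ℤ) + (t' : ℤ) ∧
      (p.1 * p.2 : ℤ) = (n : ℤ) ^ 2 + (t' : ℤ) * n + (c' : ℤ) ∧ n ≡ a [MOD q]) →
      0 < 2 * (n : ℤ) + (t' : ℤ) ∧
      (p.1 * p.2 : ℤ) = (n : ℤ) ^ 2 + (t' : ℤ) * n + (c' : ℤ) ∧ n ≡ a [MOD q] := by
      intro p
      by_cases hp : ∃ n : ℕ, 0 < 2 * (n : ℤ) + (t' : ℤ) ∧
        (p.1 * p.2 : ℤ) = (n : ℤ) ^ 2 + (t' : ℤ) * n + (c' : ℤ) ∧ n ≡ a [MOD q]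
      · obtain ⟨n, hn⟩ := hp
        exact ⟨n, fun _ => hn⟩
      · exact ⟨0, fun h => absurd h hp⟩
    choose ν hν using hch
    refine card_le_card_of_injOn (fun p => (p.1, p.2, ν p)) ?_ ?_
    · intro p hp
      have hp' := mem_filter.1 (mem_coe.1 hp)
      obtain ⟨h1, h2, h3⟩ := hν p hp'.2
      have h4 := hp'.1
      unfold Pool.Agent.W78.EG.SP at h4
      rw [mem_filter, mem_product, mem_Icc, mem_Icc] at h4
      obtain ⟨⟨⟨k1, k2⟩, k3, k4⟩, -⟩ := h4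
      rw [mem_coe, mem_filter]
      refine ⟨?_, h3⟩
      unfold TP
      rw [mem_filter, mem_product, mem_product, mem_Icc, mem_Icc, mem_range, Nat.floor_natCast]
      refine ⟨⟨⟨k1, k2⟩, ⟨k3, k4⟩, ?_⟩, h2, h1⟩
      have h5 : (ν p) ^ 2 ≤ X ^ 2 := by
        have h6 : ((ν p : ℕ) : ℤ) ^ 2 ≤ (p.1 : ℤ) * p.2 := by
          rw [h2]
          have : (0 : ℤ) ≤ (t' : ℤ) * (ν p : ℕ) := by positivity
          have : (0 : ℤ) ≤ (c' : ℤ) := by positivity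
          linarith
        have h7 : (ν p) ^ 2 ≤ p.1 * p.2 := by exact_mod_cast h6
        rw [pow_two X]
        exact h7.trans (Nat.mul_le_mul k2 k4)
      exact Nat.lt_succ_of_le (le_of_sq_le_sq' h5)
    · intro p _ p' _ hpp
      simp only [Prod.mk.injEq] at hpp
      exact Prod.ext hpp.1 hpp.2.1
  exact_mod_cast hcard

end Pool.Agent.N951.LC
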